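import Pool.Agent.H550R2.SP.Tt

set_option autoImplicit false

/-! Symmetric truth-table reductions of 3-SAT to sets with few strings. -/

namespace Pool.Agent.Results.MP_ce7d1b_lc.SymmetricTruthTable

open Pool.Agent.H550R2.Lift Pool.Agent.H550R2.Lin
open Pool.Agent.H550R2.Neg (act)
open Pool.Agent.H30R2.NS (Clause Ext Sat Small)

theorem result {X : Type} {n : ℕ} {ι : Fin n → X} (hι : Function.Injective ι) (E : Ext ι)
    (F : PRed (Clause 3 X) (Fin n) (act 3 E)) (s d : ℕ) (hs1 : 1 ≤ s)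
    (hs : ∀ j, (F.S j).card ≤ s) (hd : ∀ k, (F.mon k).card ≤ d) (θ δ : ℝ) (hδ : 0 < δ)
    (hF : ∀ Φ ∈ Small 3 X (4 * (n + 1)),
      (Sat Φ → θ + δ ≤ F.value Φ) ∧ (¬ Sat Φ → F.value Φ ≤ θ)) :
    -- any number of queries
    (∀ w q : ℕ, (∀ k, F.cost k < 2 ^ w) → 2 * F.weight ≤ δ * 2 ^ w → 1 ≤ w → 1 ≤ q →
      8000 * (q * w) ≤ n → δ * 2 ^ q ≤ 2 * F.weight * s ^ d) ∧
    -- any weight
    (∀ w q : ℕ, F.total < 2 ^ w → 1 ≤ w → 1 ≤ q → 8000 * (q * w) ≤ n →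
      δ * 2 ^ q ≤ F.weight * s ^ d) ∧
    -- polynomial cost
    (∀ c : ℕ, (∀ k, F.cost k ≤ n ^ c) → s ≤ n ^ c → 2 * F.weight ≤ δ * n ^ c →
      n < 8000 * ((c * (Nat.log 2 n + 1) * (d + 1) + 1) * (c * (Nat.log 2 n + 1) + 1))) :=
  ⟨fun _ _ hc hW hw hq hn =>
      Pool.Agent.H550R2.SP.tt_bound hι E F hs1 hs hd hF hc hW hw hq hn,
    fun _ _ hc hw hq hn => Pool.Agent.H550R2.SP.tt_total hι E F hs1 hs hd hF hc hw hq hn,
    fun _ hc hsc hW => Pool.Agent.H550R2.SP.tt_poly hι E F hs1 hs hd hδ hF hc hsc hW⟩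

end Pool.Agent.Results.MP_ce7d1b_lc.SymmetricTruthTable
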